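import Mathlib
import Pool.Agent.H15.CSP.Defs
import Pool.Agent.H15.CSP.Strong
import Pool.Agent.H15.CSP.Weak

/-!
Weak and strong homomorphisms over the completely positive semidefinite cone are different.

The graph `Y` has 29 vertices: the 24 rays of the magic square (six orthogonal bases of `ℝ⁴`) and a
seventh block with the five vectors `(1,±1,±1,0)` (up to sign) and `(0,0,0,1)`; two vertices are
adjacent when they lie in different blocks and are not orthogonal.  The seven blocks carry
resolutions of the identity by multiples of the rank one projections, the seventh one with
non-orthogonal elements.  A strong homomorphism would give projective measurements, hence the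
relations of the magic square, and these exclude a projective seventh measurement.
-/

namespace Pool.Agent.Results.MP_eafd9d_co.WeakNotStrong

open Pool.Agent.H15.CSP

/-- There is a graph `Y` on 29 vertices such that `K₇` has a weak `CS₊`-homomorphism to `Y` while
no complete graph on at least seven vertices has a strong `CS₊`-homomorphism to `Y`. -/
theorem result : ∃ Y : SimpleGraph (Fin 29),
    WeakHom (⊤ : SimpleGraph (Fin 7)) Y ∧
      ∀ n : ℕ, 7 ≤ n → ¬ StrongHom (⊤ : SimpleGraph (Fin n)) Y :=
  ⟨Yg, weak, no_strong⟩

end Pool.Agent.Results.MP_eafd9d_co.WeakNotStrong
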